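import Pool.Agent.J4H48.HK.Stm

/-! Project HK (MP_0e6b5f_nt), piece INT. -/

set_option autoImplicit false

open Polynomial NumberField

namespace Pool.Agent.J4H79.HK

open Pool.Agent.J4H48.HK IsDedekindDomain

variable {K : Type} [Field K] [NumberField K]

theorem val_int (v : HeightOneSpectrum (𝓞 K)) {x : K} (hx : IsIntegral ℤ x) :
    v.valuation K x ≤ 1 :=
  v.valuation_le_one (K := K) (⟨x, hx⟩ : 𝓞 K)

theorem val_poly (v : HeightOneSpectrum (𝓞 K)) (G : K[X]) (hG : G.Monic) (hd : 2 ≤ G.natDegree)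
    (hc : ∀ i, IsIntegral ℤ (G.coeff i)) (γ : K) (hγ : IsIntegral ℤ γ) (w : K)
    (hw : 1 < v.valuation K w) :
    v.valuation K (G.eval w + γ) = v.valuation K w ^ G.natDegree := by
  set m := v.valuation K w with hm
  have hpow : ∀ i : ℕ, i < G.natDegree → m ^ i ≤ m ^ (G.natDegree - 1) := fun i hi =>
    pow_le_pow_right₀ hw.le (by omega)
  have hlt : m ^ (G.natDegree - 1) < m ^ G.natDegree := pow_lt_pow_right₀ hw (by omega)
  have h1 : (1 : WithZero (Multiplicative ℤ)) ≤ m ^ (G.natDegree - 1) := one_le_pow₀ hw.le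
  rw [eval_eq_sum_range, Finset.sum_range_succ]
  have hlead : G.coeff G.natDegree * w ^ G.natDegree = w ^ G.natDegree := by
    have : G.coeff G.natDegree = 1 := hG
    rw [this, one_mul]
  rw [hlead, add_right_comm]
  rw [Valuation.map_add_eq_of_lt_right, map_pow]
  rw [map_pow]
  refine lt_of_le_of_lt (Valuation.map_add _ _ _) (max_lt ?_ ?_)
  · refine lt_of_le_of_lt (Valuation.map_sum_le _ (fun i hi => ?_)) hlt
    rw [Finset.mem_range] at hi
    rw [map_mul, map_pow]
    calc v.valuation K (G.coeff i) * m ^ i ≤ 1 * m ^ i :=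
          mul_le_mul_left (val_int v (hc i)) _
      _ = m ^ i := one_mul _
      _ ≤ _ := hpow i hi
  · exact lt_of_le_of_lt ((val_int v hγ).trans h1) hlt

/-- INT. -/
theorem t_INT : S_INT := by
  intro K _ _ G hG hd hc α β γ hα hβ hγ W hW w hw
  have key : ∀ v : HeightOneSpectrum (𝓞 K), v.valuation K w ≤ 1 := by
    intro v
    obtain ⟨w₀, hw₀, hmax⟩ := W.exists_max_image (fun w => v.valuation K w) ⟨w, hw⟩
    refine (hmax w hw).trans ?_
    by_contra hlt
    push Not at hlt
    obtain ⟨a, ha, b, hb, hab⟩ := hW w₀ hw₀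
    have h1 := val_poly v G hG hd hc γ hγ w₀ hlt
    rw [hab] at h1
    have h2 : v.valuation K (α * a + β * b) ≤ v.valuation K w₀ := by
      refine (Valuation.map_add _ _ _).trans (max_le ?_ ?_)
      · rw [map_mul]
        calc _ ≤ 1 * v.valuation K a := mul_le_mul_left (val_int v hα) _
          _ = v.valuation K a := one_mul _
          _ ≤ _ := hmax a ha
      · rw [map_mul]
        calc _ ≤ 1 * v.valuation K b := mul_le_mul_left (val_int v hβ) _
          _ = v.valuation K b := one_mul _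
          _ ≤ _ := hmax b hb
    rw [h1] at h2
    have h3 : v.valuation K w₀ ^ 1 < v.valuation K w₀ ^ G.natDegree :=
      pow_lt_pow_right₀ hlt (by omega)
    rw [pow_one] at h3
    exact absurd h2 (not_le.mpr h3)
  obtain ⟨y, hy⟩ := HeightOneSpectrum.mem_integers_of_valuation_le_one K w key
  rw [← hy]
  exact y.2

end Pool.Agent.J4H79.HK
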