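import Pool.Agent.J4H48.HK.Stm

/-! Project HK (MP_0e6b5f_nt), piece NORM. -/

set_option autoImplicit false

open Polynomial NumberField

namespace Pool.Agent.J4H79.HK

open Pool.Agent.J4H48.HK

theorem above (K L : Type) [Field K] [NumberField K] [Field L] [Algebra K L]
    [FiniteDimensional K L] (τ : K →+* ℂ) :
    ∃ f : Fin (Module.finrank K L) → (L →+* ℂ), (∀ j (x : K), f j (algebraMap K L x) = τ x) ∧
      ∀ y : L, ∏ j, f j y = τ (Algebra.norm K y) := by
  let _ : Algebra K ℂ := τ.toAlgebra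
  have hcard : Fintype.card (L →ₐ[K] ℂ) = Module.finrank K L := AlgHom.card K L ℂ
  let e : Fin (Module.finrank K L) ≃ (L →ₐ[K] ℂ) :=
    (Fintype.equivFinOfCardEq hcard).symm
  refine ⟨fun j => ((e j : L →ₐ[K] ℂ) : L →+* ℂ), fun j x => ?_, fun y => ?_⟩
  · exact (e j).commutes x
  · have h := Algebra.norm_eq_prod_embeddings K ℂ y
    have h2 : algebraMap K ℂ (Algebra.norm K y) = τ (Algebra.norm K y) := rfl
    rw [← h2, h]
    exact Fintype.prod_equiv e _ _ (fun j => rfl)

/-- NORM. -/
theorem t_NORM : S_NORM := by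
  intro K L _ _ _ _ _
  choose σ h1 h2 using above K L
  refine ⟨σ, h1, fun x hx t => ?_⟩
  have hy : IsIntegral ℤ ((t : L) - x) := by
    have h1 : IsIntegral ℤ (t : L) := by
      have := isIntegral_algebraMap (R := ℤ) (A := L) (x := t)
      simpa using this
    exact h1.sub hx
  have hn : IsIntegral ℤ (Algebra.norm K ((t : L) - x)) := Algebra.isIntegral_norm K hy
  refine ⟨⟨Algebra.norm K ((t : L) - x), hn⟩, fun τ => ?_⟩
  have h3 := h2 τ ((t : L) - x)
  simp only [map_sub, map_intCast] at h3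
  rw [h3]
  rfl

end Pool.Agent.J4H79.HK
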