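import Pool.Agent.J4H48.HK.Stm

/-!
Project HK (MP_0e6b5f_nt), piece SIZE (after Pool.Agent.J4H57.HN.Size).
-/

set_option autoImplicit false

open Polynomial

namespace Pool.Agent.J4H79.HK

open Pool.Agent.J4H48.HK

theorem eval_split {G : ℂ[X]} {d : ℕ} (hm : G.Monic) (hd : G.natDegree = d) (w : ℂ) :
    G.eval w = (∑ k ∈ Finset.range d, G.coeff k * w ^ k) + w ^ d := by
  rw [eval_eq_sum_range, hd, Finset.sum_range_succ]
  have h : G.coeff d = 1 := by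
    rw [← hd]
    exact hm
  rw [h, one_mul]

theorem eval_near {G : ℂ[X]} {d : ℕ} (hm : G.Monic) (hd : G.natDegree = d) :
    ∃ B : ℝ, 0 ≤ B ∧ ∀ (w : ℂ) (m : ℝ), 1 ≤ m → ‖w‖ ≤ m → ‖G.eval w - w ^ d‖ ≤ B * m ^ (d - 1) := by
  refine ⟨∑ k ∈ Finset.range d, ‖G.coeff k‖, Finset.sum_nonneg fun _ _ => norm_nonneg _, ?_⟩
  intro w m hm1 hwm
  rw [eval_split hm hd, add_sub_cancel_right]
  refine (norm_sum_le _ _).trans ?_
  rw [Finset.sum_mul]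
  refine Finset.sum_le_sum fun k hk => ?_
  rw [Finset.mem_range] at hk
  rw [norm_mul, norm_pow]
  refine mul_le_mul_of_nonneg_left ?_ (norm_nonneg _)
  calc ‖w‖ ^ k ≤ m ^ k := pow_le_pow_left₀ (norm_nonneg _) hwm _
    _ ≤ m ^ (d - 1) := pow_le_pow_right₀ hm1 (by omega)

/-- SIZE. -/
theorem t_SIZE : S_SIZE := by
  intro G d hd2 hm hd μ hμ A hA
  obtain ⟨B, hB0, hB⟩ := eval_near hm hd
  have hd0 : (0 : ℝ) < d := by
    have : 0 < d := by omega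
    exact_mod_cast this
  obtain ⟨M, hM⟩ : ∃ M : ℝ, M = ‖μ‖ := ⟨_, rfl⟩
  have hM0 : 0 < M := by rw [hM]; exact norm_pos_iff.mpr hμ
  obtain ⟨r, hr1, hr2, hr3⟩ : ∃ r : ℝ, 1 ≤ r ∧ 4 * M ≤ r ∧ 4 / M ≤ r :=
    ⟨max 1 (max (4 * M) (4 / M)), le_max_left _ _, (le_max_left _ _).trans (le_max_right _ _),
      (le_max_right _ _).trans (le_max_right _ _)⟩
  have hr0 : 0 < r := by linarith
  have hrd : r ≤ r ^ d := le_self_pow₀ hr1 (by omega)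
  obtain ⟨T₀, hT₀⟩ : ∃ T₀ : ℝ, T₀ = 2 * ((A * r + B) / M) + 2 * (A + B) + 1 := ⟨_, rfl⟩
  have hpos1 : 0 ≤ (A * r + B) / M := by positivity
  have hT₀1 : 1 ≤ T₀ := by
    rw [hT₀]
    linarith
  refine ⟨T₀ ^ d, r, one_le_pow₀ hT₀1, hr1, ?_⟩
  intro γ hγ W hW
  obtain ⟨T, hT⟩ : ∃ T : ℝ, T = |γ| ^ (1 / (d : ℝ)) := ⟨_, rfl⟩
  rw [← hT]
  have hT0 : T₀ ≤ T := by
    rw [hT]
    have h1 : T₀ = (T₀ ^ d) ^ (1 / (d : ℝ)) := by
      rw [one_div, Real.pow_rpow_inv_natCast (by linarith) (by omega)]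
    rw [h1]
    exact Real.rpow_le_rpow (by positivity) hγ (by positivity)
  have hTd : T ^ d = |γ| := by
    rw [hT, one_div, Real.rpow_inv_natCast_pow (abs_nonneg _) (by omega)]
  have hT1 : 1 ≤ T := hT₀1.trans hT0
  have hnγ : ‖μ * (γ : ℂ)‖ = M * T ^ d := by
    rw [norm_mul, Complex.norm_real, Real.norm_eq_abs, hTd, hM]
  have hpow : ∀ x : ℝ, 1 ≤ x → x ≤ x ^ (d - 1) := fun x hx => le_self_pow₀ hx (by omega)
  have hsucc : ∀ x : ℝ, x ^ d = x * x ^ (d - 1) := by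
    intro x
    obtain ⟨e, he⟩ : ∃ e, d = e + 1 := ⟨d - 1, by omega⟩
    rw [he, Nat.add_sub_cancel, pow_succ]
    ring
  -- upper bound
  have hup : ∀ w ∈ W, ‖w‖ ≤ r * T := by
    intro w hw
    obtain ⟨w₀, hw₀, hmax⟩ := Finset.exists_max_image W (fun w => ‖w‖) ⟨w, hw⟩
    refine (hmax w hw).trans ?_
    by_contra hcon
    push Not at hcon
    obtain ⟨b, hb⟩ : ∃ b : ℝ, b = ‖w₀‖ := ⟨_, rfl⟩
    rw [← hb] at hcon
    have hTb : T ≤ b := by nlinarith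
    have hb1 : 1 ≤ b := by linarith
    obtain ⟨u, hu, v, hv, h1⟩ := hW w₀ hw₀
    have h2 : max ‖u‖ ‖v‖ ≤ b := by
      rw [hb]
      exact max_le (hmax u hu) (hmax v hv)
    have h3 := hB w₀ b hb1 hb.symm.le
    have h4 : M * T ^ d ≤ b ^ d / 4 := by
      have k1 : (r * T) ^ d ≤ b ^ d := pow_le_pow_left₀ (by positivity) hcon.le d
      rw [mul_pow] at k1
      have k2 : 4 * M * T ^ d ≤ r ^ d * T ^ d :=
        mul_le_mul_of_nonneg_right (hr2.trans hrd) (by positivity)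
      linarith
    have h5 : ‖w₀ ^ d‖ = b ^ d := by rw [norm_pow, hb]
    have h6 : ‖w₀ ^ d‖ ≤ ‖G.eval w₀ + μ * (γ : ℂ)‖ + ‖G.eval w₀ - w₀ ^ d‖ + ‖μ * (γ : ℂ)‖ := by
      have e : w₀ ^ d = (G.eval w₀ + μ * (γ : ℂ)) - (G.eval w₀ - w₀ ^ d) - μ * (γ : ℂ) := by ring
      calc ‖w₀ ^ d‖ = ‖(G.eval w₀ + μ * (γ : ℂ)) - (G.eval w₀ - w₀ ^ d) - μ * (γ : ℂ)‖ := by
            rw [← e]
        _ ≤ ‖(G.eval w₀ + μ * (γ : ℂ)) - (G.eval w₀ - w₀ ^ d)‖ + ‖μ * (γ : ℂ)‖ := norm_sub_le _ _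
        _ ≤ _ := by
          have := norm_sub_le (G.eval w₀ + μ * (γ : ℂ)) (G.eval w₀ - w₀ ^ d)
          linarith
    rw [h5, hnγ] at h6
    have h7 : A * max ‖u‖ ‖v‖ ≤ A * b ^ (d - 1) :=
      mul_le_mul_of_nonneg_left (h2.trans (hpow b hb1)) hA
    have h8 : 3 / 4 * b ^ d ≤ (A + B) * b ^ (d - 1) := by linarith
    rw [hsucc b, ← mul_assoc] at h8
    have h9 : 3 / 4 * b ≤ A + B := le_of_mul_le_mul_right h8 (by positivity)
    linarith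
  have hnear : ∀ w ∈ W, ‖G.eval w + μ * (γ : ℂ)‖ ≤ A * r * T := by
    intro w hw
    obtain ⟨u, hu, v, hv, h1⟩ := hW w hw
    refine h1.trans ?_
    have h2 : max ‖u‖ ‖v‖ ≤ r * T := max_le (hup u hu) (hup v hv)
    calc A * max ‖u‖ ‖v‖ ≤ A * (r * T) := mul_le_mul_of_nonneg_left h2 hA
      _ = _ := by ring
  intro w hw
  refine ⟨?_, hup w hw, hnear w hw⟩
  by_contra hcon
  push Not at hcon
  have hwT : ‖w‖ ≤ T := by
    refine hcon.le.trans ?_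
    calc 1 / r * T ≤ 1 * T := mul_le_mul_of_nonneg_right (by
          rw [div_le_one hr0]; exact hr1) (by linarith)
      _ = T := one_mul T
  have h3 := hB w T hT1 hwT
  have h4 : ‖w ^ d‖ ≤ M * T ^ d / 4 := by
    rw [norm_pow]
    have k1 : ‖w‖ ^ d ≤ (1 / r * T) ^ d := pow_le_pow_left₀ (norm_nonneg _) hcon.le d
    refine k1.trans ?_
    rw [mul_pow, one_div, inv_pow]
    have k2 : (r ^ d)⁻¹ ≤ M / 4 := by
      have k3 : 4 / M ≤ r ^ d := hr3.trans hrd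
      have k4 : (r ^ d)⁻¹ ≤ (4 / M)⁻¹ := inv_anti₀ (by positivity) k3
      rwa [inv_div] at k4
    calc (r ^ d)⁻¹ * T ^ d ≤ M / 4 * T ^ d := mul_le_mul_of_nonneg_right k2 (by positivity)
      _ = _ := by ring
  have h6 : ‖μ * (γ : ℂ)‖ ≤ ‖G.eval w + μ * (γ : ℂ)‖ + ‖G.eval w - w ^ d‖ + ‖w ^ d‖ := by
    have e : μ * (γ : ℂ) = (G.eval w + μ * (γ : ℂ)) - (G.eval w - w ^ d) - w ^ d := by ring
    calc ‖μ * (γ : ℂ)‖ = ‖(G.eval w + μ * (γ : ℂ)) - (G.eval w - w ^ d) - w ^ d‖ := by rw [← e]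
      _ ≤ ‖(G.eval w + μ * (γ : ℂ)) - (G.eval w - w ^ d)‖ + ‖w ^ d‖ := norm_sub_le _ _
      _ ≤ _ := by
        have := norm_sub_le (G.eval w + μ * (γ : ℂ)) (G.eval w - w ^ d)
        linarith
  rw [hnγ] at h6
  have h7 := hnear w hw
  have h8 : A * r * T ≤ A * r * T ^ (d - 1) := mul_le_mul_of_nonneg_left (hpow T hT1) (by positivity)
  have h9 : 3 / 4 * (M * T ^ d) ≤ (A * r + B) * T ^ (d - 1) := by linarith
  rw [hsucc T, show 3 / 4 * (M * (T * T ^ (d - 1))) = (3 / 4 * M * T) * T ^ (d - 1) by ring] at h9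
  have h10 : 3 / 4 * M * T ≤ A * r + B := le_of_mul_le_mul_right h9 (by positivity)
  have h11 : 2 * ((A * r + B) / M) + 1 ≤ T := by linarith
  have h12 : M * (2 * ((A * r + B) / M) + 1) ≤ M * T := mul_le_mul_of_nonneg_left h11 hM0.le
  have h13 : M * (2 * ((A * r + B) / M) + 1) = 2 * (A * r + B) + M := by field_simp
  have h14 : 0 ≤ A * r + B := by positivity
  nlinarith

end Pool.Agent.J4H79.HK
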